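import Pool.Agent.HK.Main
import Pool.Agent.HK.UCP
import Pool.Agent.HK.FC
import Pool.Agent.HK.Hardy
import Pool.Agent.HK.NBody
import Pool.Agent.HK.Op
import Pool.Agent.HK.Split
import Pool.Agent.HK.Zero
import Pool.Agent.HK.Sobolev
import Pool.Agent.HK.Moll
import Pool.Agent.HK.Approx
import Pool.Agent.HK.Mult
import Pool.Agent.HK.Young
import Pool.Agent.HK.Phi
import Pool.Agent.HK.Interp
import Pool.Agent.HK.LM
import Pool.Agent.HK.HarmDim
import Pool.Agent.HK.HarmDecomp
import Pool.Agent.HK.HarmRot
import Pool.Agent.HK.Polar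
import Pool.Agent.HK.Var
import Pool.Agent.HK.Lift
import Pool.Agent.HK.Cell
import Pool.Agent.HK.TestH1
import Pool.Agent.HK.Cacc
import Pool.Agent.HK.Order
import Pool.Agent.HK.CarlH
import Pool.Agent.HK.Star
import Pool.Agent.HK.Sph
import Pool.Agent.HK.Mode
import Pool.Agent.HK.Kernel
import Pool.Agent.HK.Low
import Pool.Agent.HK.High

/-!
# The Hohenberg-Kohn theorem for potentials in `L^{3/2} + L^∞`
-/

open MeasureTheory Pool.Agent.HK

namespace Pool.Agent.Results.MP_1266f8_mp.HohenbergKohn

/-- If two potentials in `L^{3/2}(ℝ³) + L^∞(ℝ³)` have a common ensemble ground-state density of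
`n + 1` electrons, they differ by a constant almost everywhere. -/
theorem result (n : ℕ) (v₁ v₂ ρ : E3 → ℝ) (h₁ : XStar v₁) (h₂ : XStar v₂)
    (g₁ : IsGroundStateDensity n v₁ ρ) (g₂ : IsGroundStateDensity n v₂ ρ) :
    ∃ c : ℝ, ∀ᵐ x, v₁ x - v₂ x = c := by
  have hM := target_Moll
  have hA := target_Approx hM
  have hZ := target_Zero hA
  have hSL := target_Slice
  have hS := target_Sobolev hA
  have hV := target_SplitV
  have hF := target_FormBound hS hV
  have hH := target_Hardy hA
  have hN := target_NBody hSL hF hH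
  have hT := target_TestH1 hA hF
  have hCa := target_Cacc hA hF hT
  have hOr := target_Order hS hCa
  have hPo := target_Polar
  have hSph := target_SPH target_HarmDim target_HarmDecomp (target_HarmRot hPo)
  have hMo := target_Mode hPo
  have hLow := target_Low (target_Kernel target_Phi) target_Young (target_Mult target_Interp) hMo
  have hHigh := target_High hMo hPo
  have hFC := target_FC hPo hSph hLow hHigh
  have hStar := target_Star hFC hM hT hS
  have hUCP := target_UCP hV hCa hOr (target_CarlH hStar)
  have hCell := target_Cell (target_Op target_LM hN) target_Lift hSL hN hUCP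
  exact target_Main (target_Var hN) (target_Split hZ hSL) hCell n v₁ v₂ ρ h₁ h₂ g₁ g₂

end Pool.Agent.Results.MP_1266f8_mp.HohenbergKohn
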